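import Mathlib

namespace Pool.Agent.Results.MP_eadfc1_pr.Birth

open Finset Real

/-- `hit P y k x` is the probability that the chain started at `x` first hits `y` at time `k`. -/
noncomputable def hit {n : ℕ} (P : Fin n → Fin n → ℝ) (y : Fin n) : ℕ → Fin n → ℝ
  | 0, x => if x = y then 1 else 0
  | k + 1, x => if x = y then 0 else ∑ z, P x z * hit P y k z

/-- Row-stochastic matrices. -/
def Stoch {n : ℕ} (P : Fin n → Fin n → ℝ) : Prop := (∀ x z, 0 ≤ P x z) ∧ ∀ x, ∑ z, P x z = 1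

noncomputable def PP (m : ℕ) (q : ℝ) : Fin (m + 1) → Fin (m + 1) → ℝ := fun x z =>
  (if z = x then 1 - q else 0) + (if z = x + 1 then q else 0)

lemma PP_sum (m : ℕ) (q : ℝ) (x : Fin (m + 1)) (g : Fin (m + 1) → ℝ) :
    ∑ z, PP m q x z * g z = (1 - q) * g x + q * g (x + 1) := by
  simp [PP, add_mul, Finset.sum_add_distrib, ite_mul]

noncomputable def F (m : ℕ) (q : ℝ) (T : ℕ) (x : Fin (m + 1)) : ℝ :=
  ∑ k ∈ range (T + 1), hit (PP m q) (Fin.last m) k x

lemma F_zero (m : ℕ) (q : ℝ) (x : Fin (m + 1)) : F m q 0 x = if x = Fin.last m then 1 else 0 := by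
  simp [F, hit]

lemma F_last (m : ℕ) (q : ℝ) (T : ℕ) : F m q T (Fin.last m) = 1 := by
  unfold F
  rw [Finset.sum_range_succ']
  simp [hit]

lemma F_succ (m : ℕ) (q : ℝ) (T : ℕ) (x : Fin (m + 1)) (hx : x ≠ Fin.last m) :
    F m q (T + 1) x = (1 - q) * F m q T x + q * F m q T (x + 1) := by
  unfold F
  rw [Finset.sum_range_succ', Finset.mul_sum, Finset.mul_sum, ← Finset.sum_add_distrib]
  simp only [hit, if_neg hx, PP_sum, add_zero]

lemma val_succ {m : ℕ} (x : Fin (m + 1)) (hx : x ≠ Fin.last m) :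
    m - x.val = (m - (x + 1).val) + 1 := by
  have h1 : x < Fin.last m := lt_of_le_of_ne (Fin.le_last x) hx
  have h2 := Fin.val_add_one_of_lt h1
  have h3 : x.val < m := h1
  rw [h2]
  omega

lemma up (m : ℕ) {q s : ℝ} (q0 : 0 ≤ q) (q1 : q ≤ 1) (hs : 1 ≤ s) (T : ℕ) :
    ∀ x, F m q T x ≤ (s⁻¹) ^ (m - x.val) * (1 + q * (s - 1)) ^ T := by
  have s0 : 0 < s := by linarith
  have h1 : 1 ≤ 1 + q * (s - 1) := by nlinarith
  have hl : ∀ T, F m q T (Fin.last m) ≤
      (s⁻¹) ^ (m - (Fin.last m).val) * (1 + q * (s - 1)) ^ T := by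
    intro T
    rw [F_last]
    simpa using one_le_pow₀ h1
  induction T with
  | zero =>
    intro x
    by_cases hx : x = Fin.last m
    · rw [hx]
      exact hl 0
    · rw [F_zero, if_neg hx]
      positivity
  | succ T ih =>
    intro x
    by_cases hx : x = Fin.last m
    · rw [hx]
      exact hl _
    · rw [F_succ m q T x hx]
      have a := mul_le_mul_of_nonneg_left (ih x) (by linarith : 0 ≤ 1 - q)
      have b := mul_le_mul_of_nonneg_left (ih (x + 1)) q0
      refine (add_le_add a b).trans (le_of_eq ?_)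
      rw [val_succ x hx, pow_succ, pow_succ]
      field_simp
      ring

lemma down (m : ℕ) {q s : ℝ} (q0 : 0 ≤ q) (q1 : q ≤ 1) (s0 : 0 < s) (hs : s ≤ 1) (T : ℕ) :
    ∀ x, 1 - F m q T x ≤ (s⁻¹) ^ (m - x.val) * (1 + q * (s - 1)) ^ T := by
  have h1 : 0 ≤ 1 + q * (s - 1) := by nlinarith
  have hl : ∀ T, 1 - F m q T (Fin.last m) ≤
      (s⁻¹) ^ (m - (Fin.last m).val) * (1 + q * (s - 1)) ^ T := by
    intro T
    rw [F_last, sub_self]
    positivity
  induction T with
  | zero =>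
    intro x
    by_cases hx : x = Fin.last m
    · rw [hx]
      exact hl 0
    · rw [F_zero, if_neg hx, pow_zero, mul_one, sub_zero]
      exact one_le_pow₀ ((one_le_inv₀ s0).mpr hs)
  | succ T ih =>
    intro x
    by_cases hx : x = Fin.last m
    · rw [hx]
      exact hl _
    · rw [F_succ m q T x hx]
      have a := mul_le_mul_of_nonneg_left (ih x) (by linarith : 0 ≤ 1 - q)
      have b := mul_le_mul_of_nonneg_left (ih (x + 1)) q0
      have e : 1 - ((1 - q) * F m q T x + q * F m q T (x + 1))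
          = (1 - q) * (1 - F m q T x) + q * (1 - F m q T (x + 1)) := by ring
      rw [e]
      refine (add_le_add a b).trans (le_of_eq ?_)
      rw [val_succ x hx, pow_succ, pow_succ]
      field_simp
      ring

lemma chern (j T : ℕ) {q v : ℝ} (q0 : 0 ≤ q) (q1 : q ≤ 1) (v0 : -(1/2) ≤ v) (_v1 : v ≤ 1 / 2)
    (h : 2 * j * (-v + 2 * v ^ 2) + T * (q * v) ≤ -2) :
    ((1 + v)⁻¹) ^ (2 * j) * (1 + q * (1 + v - 1)) ^ T ≤ 1 / 4 := by
  have s0 : 0 < 1 + v := by linarith
  have a1 : (1 + v)⁻¹ ≤ exp (-v + 2 * v ^ 2) := by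
    refine le_trans ?_ (add_one_le_exp _)
    rw [inv_le_iff_one_le_mul₀ s0]
    nlinarith [mul_nonneg (sq_nonneg v) (by linarith : 0 ≤ 1 + 2 * v)]
  have a2 : 1 + q * (1 + v - 1) ≤ exp (q * v) := by
    have := add_one_le_exp (q * v)
    linarith
  have a3 : 0 ≤ 1 + q * (1 + v - 1) := by nlinarith
  have b1 := pow_le_pow_left₀ (by positivity) a1 (2 * j)
  have b2 := pow_le_pow_left₀ a3 a2 T
  rw [← exp_nat_mul] at b1 b2
  refine (mul_le_mul b1 b2 (by positivity) (by positivity)).trans ?_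
  rw [← exp_add]
  have c1 : exp (((2 * j : ℕ) : ℝ) * (-v + 2 * v ^ 2) + T * (q * v)) ≤ exp (-2) := by
    apply exp_le_exp.mpr
    push_cast
    exact h
  refine c1.trans ?_
  have c2 : (2:ℝ) ≤ exp 1 := by
    have := add_one_le_exp 1
    linarith
  have c3 : exp 2 = exp 1 * exp 1 := by
    rw [← exp_add]
    norm_num
  rw [exp_neg, one_div]
  refine inv_anti₀ (by norm_num) ?_
  rw [c3]
  nlinarith

theorem result (C : ℝ) : ∃ (n : ℕ) (P : Fin n → Fin n → ℝ) (x y : Fin n) (t : ℕ),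
    Stoch P ∧ n < t ∧ C * n / t < ∑ k ∈ Icc t (t + n), hit P y k x := by
  obtain ⟨L, hL⟩ := exists_nat_ge (3 * C)
  obtain ⟨K, hK⟩ : ∃ K : ℕ, K = L + 2 := ⟨_, rfl⟩
  have K2 : (2:ℝ) ≤ K := by
    rw [hK]
    push_cast
    have : (0:ℝ) ≤ L := by positivity
    linarith
  have KC : 3 * C + 2 ≤ K := by
    rw [hK]
    push_cast
    linarith
  obtain ⟨j, hj⟩ : ∃ j : ℕ, j = 32 * K ^ 2 := ⟨_, rfl⟩
  have hjr : (j:ℝ) = 32 * (K:ℝ) ^ 2 := by
    rw [hj]
    push_cast
    ring
  have j1 : 1 ≤ j := by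
    rw [hj, hK]
    nlinarith [Nat.zero_le L]
  have K0 : (0:ℝ) < K := by linarith
  have q0 : (0:ℝ) ≤ 1 / K := by positivity
  have q1 : (1:ℝ) / K ≤ 1 := by
    rw [div_le_one K0]
    linarith
  have v0 : (0:ℝ) < 1 / (8 * K) := by positivity
  have v1 : (1:ℝ) / (8 * K) ≤ 1 / 2 := by
    rw [div_le_div_iff₀ (by positivity) (by norm_num)]
    linarith
  refine ⟨2 * j + 1, PP (2 * j) (1 / K), 0, Fin.last _, (2 * L + 3) * j + 1, ⟨?_, ?_⟩, ?_, ?_⟩
  · intro x z
    unfold PP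
    split_ifs <;> linarith
  · intro x
    have := PP_sum (2 * j) (1 / K) x (fun _ => 1)
    simp only [mul_one] at this
    rw [this]
    ring
  · nlinarith [Nat.zero_le (L * j)]
  · have e : ∑ k ∈ Icc ((2 * L + 3) * j + 1) ((2 * L + 3) * j + 1 + (2 * j + 1)),
        hit (PP (2 * j) (1 / K)) (Fin.last _) k 0
        = F (2 * j) (1 / K) ((2 * L + 3) * j + 1 + (2 * j + 1)) 0
          - F (2 * j) (1 / K) ((2 * L + 3) * j) 0 := by
      unfold F
      rw [← Finset.sum_Ico_eq_sub _ (by omega)]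
      refine Finset.sum_congr ?_ fun _ _ => rfl
      ext k
      simp only [Finset.mem_Icc, Finset.mem_Ico]
      omega
    rw [e]
    have u := up (2 * j) q0 q1 (s := 1 + 1 / (8 * K)) (by linarith) ((2 * L + 3) * j) 0
    have w := down (2 * j) q0 q1 (s := 1 + -(1 / (8 * K))) (by linarith) (by linarith)
      ((2 * L + 3) * j + 1 + (2 * j + 1)) 0
    have hLK : (L:ℝ) = K - 2 := by
      rw [hK]
      push_cast
      ring
    have u2 := chern j ((2 * L + 3) * j) q0 q1 (v := 1 / (8 * K)) (by linarith) v1 (by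
      push_cast
      rw [hLK, hjr]
      apply le_of_eq
      field_simp
      ring)
    have w2 := chern j ((2 * L + 3) * j + 1 + (2 * j + 1)) q0 q1 (v := -(1 / (8 * K)))
      (by linarith) (by linarith) (by
      push_cast
      rw [hLK, hjr]
      have : 2 * (32 * (K:ℝ) ^ 2) * (- -(1 / (8 * K)) + 2 * (-(1 / (8 * K))) ^ 2) +
          ((2 * (K - 2) + 3) * (32 * K ^ 2) + 1 + (2 * (32 * K ^ 2) + 1)) * (1 / K * -(1 / (8 * K)))
          = -2 - 2 * (1 / K * (1 / (8 * K))) := by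
        field_simp
        ring
      rw [this]
      have := mul_nonneg q0 v0.le
      linarith)
    simp only [Fin.val_zero, Nat.sub_zero] at u w
    have h1 : C * ((2 * j + 1 : ℕ) : ℝ) / (((2 * L + 3) * j + 1 : ℕ) : ℝ) < 1 / 2 := by
      rw [div_lt_div_iff₀ (by positivity) (by norm_num)]
      push_cast
      rw [hLK]
      have j2 : (1:ℝ) ≤ j := by exact_mod_cast j1
      rcases le_total C 0 with hC | hC
      · nlinarith [mul_nonneg (sub_nonneg.mpr K2) (by linarith : (0:ℝ) ≤ j),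
          mul_nonneg (neg_nonneg.mpr hC) (by linarith : (0:ℝ) ≤ j)]
      · nlinarith [mul_nonneg (sub_nonneg.mpr KC) (by linarith : (0:ℝ) ≤ j),
          mul_nonneg hC (sub_nonneg.mpr j2)]
    linarith

end Pool.Agent.Results.MP_eadfc1_pr.Birth
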